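import Mathlib
import Pool.Agent.H71R2.Frob.RF
import Pool.Agent.H71R2.Lef.FreeQuot

/-!
# FROB: groups with locally free derived subgroup and abelianisation of rank at most one
-/

set_option autoImplicit false

namespace Pool.Agent.H71R2.Frob

variable {G : Type} [Group G]

theorem fg_of_fp (G : Type*) [Group G] [h : Group.IsFinitelyPresented G] : Group.FG G := by
  obtain ⟨n, φ, hφ, -⟩ := h.out
  exact Group.fg_of_surjective (f := φ) hφ

/-- If `G'` is locally free and `G' ⟨t⟩` has finite index, then `G` is locally approximable by
finite groups (finitely generated case). -/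
theorem lef_of_derived [hG : Group.FG G]
    (hfree : ∀ H : Subgroup G, H ≤ commutator G → H.FG → IsFreeGroup H) (t : G)
    (ht : (commutator G ⊔ Subgroup.zpowers t).FiniteIndex) : Lef.LEF G := by
  classical
  set Δ : Subgroup G := commutator G ⊔ Subgroup.zpowers t with hΔ
  have hmem : ∀ d ∈ Δ, ∃ m : ℤ, Abelianization.of d = Abelianization.of t ^ m := by
    intro d hd
    have h1 : Δ.map (Abelianization.of (G := G)) ≤ Subgroup.zpowers (Abelianization.of t) := by
      rw [hΔ, Subgroup.map_sup]
      refine sup_le ?_ ?_
      · rintro _ ⟨x, hx, rfl⟩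
        have : Abelianization.of x = 1 := by
          rw [← MonoidHom.mem_ker, Abelianization.ker_of]
          exact hx
        rw [this]
        exact one_mem _
      · rintro _ ⟨x, hx, rfl⟩
        obtain ⟨m, rfl⟩ := Subgroup.mem_zpowers_iff.1 hx
        rw [map_zpow]
        exact Subgroup.zpow_mem _ (Subgroup.mem_zpowers _) _
    obtain ⟨m, hm⟩ := Subgroup.mem_zpowers_iff.1 (h1 ⟨d, hd, rfl⟩)
    exact ⟨m, hm.symm⟩
  by_cases htor : ∃ m : ℤ, m ≠ 0 ∧ Abelianization.of t ^ m = 1
  · -- the derived subgroup has finite index
    obtain ⟨m, hm, htm⟩ := htor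
    have hord : IsOfFinOrder (Abelianization.of t) :=
      isOfFinOrder_iff_zpow_eq_one.2 ⟨m, hm, htm⟩
    have hfin : Finite (Subgroup.zpowers (Abelianization.of t)) := hord.finite_zpowers
    let f : Δ →* Subgroup.zpowers (Abelianization.of t) :=
      (Abelianization.of.comp Δ.subtype).codRestrict _ (fun d => by
        obtain ⟨k, hk⟩ := hmem d.1 d.2
        exact Subgroup.mem_zpowers_iff.2 ⟨k, hk.symm⟩)
    have h1 : f.ker = (commutator G).subgroupOf Δ := by
      ext d
      rw [MonoidHom.mem_ker, Subgroup.mem_subgroupOf, ← Abelianization.ker_of, MonoidHom.mem_ker]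
      constructor
      · intro h
        exact congrArg Subtype.val h
      · intro h
        exact Subtype.ext h
    have h2 : ((commutator G).subgroupOf Δ).FiniteIndex := by
      rw [← h1]
      exact Subgroup.finiteIndex_ker f
    have h3 : (commutator G).FiniteIndex := by
      refine ⟨?_⟩
      have hle : commutator G ≤ Δ := le_sup_left
      rw [← Subgroup.relIndex_mul_index hle]
      exact mul_ne_zero h2.index_ne_zero ht.index_ne_zero
    have h4 : Group.FG (commutator G) := inferInstance
    have h5 : IsFreeGroup (commutator G) :=
      hfree _ le_rfl ((Group.fg_iff_subgroup_fg _).1 h4)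
    refine Lef.lef_of_finiteIndex (commutator G) ?_
    exact (Lef.lef_freeGroup _).of_injective (IsFreeGroup.toFreeGroup (commutator G)).toMonoidHom
      (IsFreeGroup.toFreeGroup (commutator G)).injective
  · push Not at htor
    have hinj : ∀ a b : ℤ, Abelianization.of t ^ a = Abelianization.of t ^ b → a = b := by
      intro a b h
      by_contra hab
      refine htor (a - b) (sub_ne_zero.2 hab) ?_
      rw [zpow_sub, h, mul_inv_cancel]
    choose s hs using fun d : Δ => hmem d.1 d.2
    let χ : Δ →* Multiplicative ℤ :=
      { toFun := fun d => Multiplicative.ofAdd (s d)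
        map_one' := by
          have : s 1 = 0 := by
            apply hinj
            rw [← hs]
            simp
          rw [this]
          rfl
        map_mul' := by
          intro a b
          have : s (a * b) = s a + s b := by
            apply hinj
            rw [← hs, zpow_add, ← hs, ← hs]
            simp
          rw [this]
          rfl }
    have hχ : Function.Surjective χ := by
      intro m
      have htΔ : t ∈ Δ := (le_sup_right : Subgroup.zpowers t ≤ Δ) (Subgroup.mem_zpowers t)
      refine ⟨⟨t, htΔ⟩ ^ (Multiplicative.toAdd m), ?_⟩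
      rw [map_zpow]
      have h1 : s ⟨t, htΔ⟩ = 1 := by
        apply hinj
        rw [← hs]
        simp
      change (Multiplicative.ofAdd (s ⟨t, htΔ⟩)) ^ _ = _
      rw [h1, ← ofAdd_zsmul]
      simp
    refine Lef.lef_of_finiteIndex Δ (lef_of_locallyFree_by_Z χ hχ ?_)
    intro H hH hfg
    have h1 : H.map Δ.subtype ≤ commutator G := by
      rintro _ ⟨d, hd, rfl⟩
      have h2 : s d = 0 := by
        have := hH hd
        rw [MonoidHom.mem_ker] at this
        exact Multiplicative.ofAdd.injective this
      have h3 := hs d
      rw [h2, zpow_zero, ← MonoidHom.mem_ker, Abelianization.ker_of] at h3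
      exact h3
    have h2 := hfree _ h1 (fg_map _ hfg)
    exact IsFreeGroup.ofMulEquiv (H.equivMapOfInjective Δ.subtype Δ.subtype_injective).symm

end Pool.Agent.H71R2.Frob
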