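import Mathlib
import Pool.Agent.H71R2.Frob.Derived

/-!
# FROB: two-generator one-relator groups
-/

set_option autoImplicit false

namespace Pool.Agent.H71R2.Frob

theorem finiteIndex_zpowers {A : Type} [CommGroup A] (a b : A) (h : Subgroup.closure {a, b} = ⊤)
    (α β : ℤ) (hα : α ≠ 0) (hab : a ^ α * b ^ β = 1) : (Subgroup.zpowers b).FiniteIndex := by
  classical
  let q : A ⧸ Subgroup.zpowers b := QuotientGroup.mk a
  have hq : q ^ α = 1 := by
    have h1 : a ^ α ∈ Subgroup.zpowers b := by
      rw [eq_inv_of_mul_eq_one_left hab]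
      exact inv_mem (Subgroup.zpow_mem _ (Subgroup.mem_zpowers b) _)
    exact (QuotientGroup.eq_one_iff _).2 h1
  have hfin : Finite (Subgroup.zpowers q) :=
    (isOfFinOrder_iff_zpow_eq_one.2 ⟨α, hα, hq⟩).finite_zpowers
  have htop : Subgroup.zpowers q = ⊤ := by
    rw [eq_top_iff]
    have h2 : (Subgroup.closure {a, b}).map (QuotientGroup.mk' (Subgroup.zpowers b)) = ⊤ := by
      rw [h]
      exact Subgroup.map_top_of_surjective _ (QuotientGroup.mk'_surjective _)
    rw [← h2, MonoidHom.map_closure, Subgroup.closure_le]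
    rintro _ ⟨x, hx, rfl⟩
    rcases hx with hx | hx
    · rw [hx]; exact Subgroup.mem_zpowers q
    · rw [Set.mem_singleton_iff.1 hx]
      have : (QuotientGroup.mk' (Subgroup.zpowers b)) b = 1 :=
        (QuotientGroup.eq_one_iff _).2 (Subgroup.mem_zpowers b)
      rw [this]
      exact one_mem _
  have hfinQ : Finite (A ⧸ Subgroup.zpowers b) := by
    rw [htop] at hfin
    exact Finite.of_equiv _ (Subgroup.topEquiv (G := A ⧸ Subgroup.zpowers b)).toEquiv
  exact Subgroup.finiteIndex_of_finite_quotient

theorem exists_finiteIndex_of_two {G : Type} [Group G] (a b : G)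
    (h : Subgroup.closure {a, b} = ⊤) (α β : ℤ) (hαβ : α ≠ 0 ∨ β ≠ 0)
    (hab : Abelianization.of a ^ α * Abelianization.of b ^ β = 1) :
    ∃ t : G, (commutator G ⊔ Subgroup.zpowers t).FiniteIndex := by
  have hcl : Subgroup.closure {Abelianization.of a, Abelianization.of b} = ⊤ := by
    have h2 : (Subgroup.closure {a, b}).map (Abelianization.of (G := G)) = ⊤ := by
      rw [h]
      exact Subgroup.map_top_of_surjective _ QuotientGroup.mk_surjective
    rw [← h2, MonoidHom.map_closure, Set.image_pair]
  have key : ∀ t : G, (Subgroup.zpowers (Abelianization.of t)).FiniteIndex →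
      (commutator G ⊔ Subgroup.zpowers t).FiniteIndex := by
    intro t ht
    have h1 : (Subgroup.zpowers (Abelianization.of t)).comap (Abelianization.of (G := G)) ≤
        commutator G ⊔ Subgroup.zpowers t := by
      intro d hd
      obtain ⟨m, hm⟩ := Subgroup.mem_zpowers_iff.1 (Subgroup.mem_comap.1 hd)
      have h2 : d * (t ^ m)⁻¹ ∈ commutator G := by
        rw [← Abelianization.ker_of, MonoidHom.mem_ker, map_mul, map_inv, map_zpow, hm,
          mul_inv_cancel]
      have h3 : d = (d * (t ^ m)⁻¹) * t ^ m := by group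
      rw [h3]
      exact Subgroup.mul_mem_sup h2 (Subgroup.zpow_mem _ (Subgroup.mem_zpowers t) m)
    have h2 : ((Subgroup.zpowers (Abelianization.of t)).comap
        (Abelianization.of (G := G))).FiniteIndex := by
      refine ⟨?_⟩
      rw [Subgroup.index_comap_of_surjective _ QuotientGroup.mk_surjective]
      exact ht.index_ne_zero
    exact Subgroup.finiteIndex_of_le h1
  rcases hαβ with hα | hβ
  · exact ⟨b, key b (finiteIndex_zpowers _ _ hcl α β hα hab)⟩
  · refine ⟨a, key a (finiteIndex_zpowers _ _ (by rw [Set.pair_comm]; exact hcl) β α hβ ?_)⟩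
    rw [mul_comm]
    exact hab

/-- Two-generator one-relator groups whose relator is not in the commutator subgroup. -/
theorem exists_t_oneRel (r : FreeGroup (Fin 2)) (hr : r ∉ commutator (FreeGroup (Fin 2))) :
    ∃ t : PresentedGroup ({r} : Set (FreeGroup (Fin 2))),
      (commutator (PresentedGroup ({r} : Set (FreeGroup (Fin 2)))) ⊔
        Subgroup.zpowers t).FiniteIndex := by
  classical
  let P := PresentedGroup ({r} : Set (FreeGroup (Fin 2)))
  let ε : Fin 2 → (FreeGroup (Fin 2) →* Multiplicative ℤ) := fun i =>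
    FreeGroup.lift fun j => if j = i then Multiplicative.ofAdd 1 else 1
  let α : ℤ := Multiplicative.toAdd (ε 0 r)
  let β : ℤ := Multiplicative.toAdd (ε 1 r)
  -- a word in a commutative group
  have hword : ∀ (A : Type) [CommGroup A] (f : Fin 2 → A) (w : FreeGroup (Fin 2)),
      FreeGroup.lift f w = f 0 ^ (Multiplicative.toAdd (ε 0 w)) *
        f 1 ^ (Multiplicative.toAdd (ε 1 w)) := by
    intro A _ f w
    let g : FreeGroup (Fin 2) →* A :=
      ((zpowersHom A (f 0)).comp (ε 0)) * ((zpowersHom A (f 1)).comp (ε 1))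
    have hg : FreeGroup.lift f = g := by
      ext1 i
      fin_cases i <;> simp [g, ε, zpowersHom_apply]
    rw [hg]
    simp [g, zpowersHom_apply]
  have hαβ : α ≠ 0 ∨ β ≠ 0 := by
    by_contra hcon
    push Not at hcon
    apply hr
    rw [← Abelianization.ker_of, MonoidHom.mem_ker]
    have h1 : (Abelianization.of : FreeGroup (Fin 2) →* _) =
        FreeGroup.lift fun i => Abelianization.of (FreeGroup.of i) := by
      ext1 i
      simp
    rw [h1, hword]
    change _ ^ α * _ ^ β = 1
    rw [hcon.1, hcon.2]
    simp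
  let a : P := PresentedGroup.of 0
  let b : P := PresentedGroup.of 1
  have hcl : Subgroup.closure {a, b} = ⊤ := by
    have h1 := PresentedGroup.closure_range_of ({r} : Set (FreeGroup (Fin 2)))
    rw [← h1]
    congr 1
    ext x
    constructor
    · rintro (rfl | rfl)
      · exact ⟨0, rfl⟩
      · exact ⟨1, rfl⟩
    · rintro ⟨i, rfl⟩
      fin_cases i
      · exact Or.inl rfl
      · exact Or.inr rfl
  have hab : Abelianization.of a ^ α * Abelianization.of b ^ β = 1 := by
    have h1 : (PresentedGroup.mk ({r} : Set (FreeGroup (Fin 2)))) r = 1 :=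
      PresentedGroup.mk_eq_one_iff.2 (Subgroup.subset_normalClosure rfl)
    have h2 : (Abelianization.of.comp (PresentedGroup.mk ({r} : Set (FreeGroup (Fin 2))))) =
        FreeGroup.lift fun i => Abelianization.of (PresentedGroup.of i : P) := by
      ext1 i
      simp
      rfl
    have h3 : Abelianization.of ((PresentedGroup.mk ({r} : Set (FreeGroup (Fin 2)))) r) = 1 := by
      rw [h1, map_one]
    have h4 := DFunLike.congr_fun h2 r
    rw [MonoidHom.comp_apply, h3, hword] at h4
    exact h4.symm
  exact exists_finiteIndex_of_two a b hcl α β hαβ hab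

end Pool.Agent.H71R2.Frob
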